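import Pool.Agent.Lib.MP_0e6f11_co.Block

namespace Pool.Agent.Results.MP_0e6f11_co.Counterexample

/-- With `n = k = 58344`: edge sets `F_1, …, F_k` of `K_{n,n}` (edges are pairs in
`Fin n × Fin n`, and `F i` is `F_{i+1}`) with `|F_i| ≥ i n` and no rainbow matching. -/
theorem result :
    ∃ n k : ℕ, n = 58344 ∧ k = 58344 ∧ ∃ F : Fin k → Finset (Fin n × Fin n),
      (∀ i : Fin k, (i.val + 1) * n ≤ (F i).card) ∧
      ¬ ∃ e : Fin k → Fin n × Fin n, (∀ i, e i ∈ F i) ∧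
        ∀ i j, i ≠ j → (e i).1 ≠ (e j).1 ∧ (e i).2 ≠ (e j).2 :=
  ⟨58344, 58344, rfl, rfl, Pool.Agent.Lib.MP_0e6f11_co.main⟩

end Pool.Agent.Results.MP_0e6f11_co.Counterexample
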